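import Pool.Agent.MWLQ.StmtsB

/-!
MWLQ, row NMN: necessity in the gamma world outside `x^2y ≈ x^2yx^n`, all periods.
-/

namespace Pool.Agent.MWLQ.H23

open Pool.Agent.Helper14_MV
open Pool.Agent.Helper2_MV (RR)
open Pool.Agent.MWGQ (Gn E0)

/-- **NMN**. -/
theorem nmn (gnd : MWGQ.GndStmt) (lef : LefStmt) (itd : ItdStmt) (dpe : MWGQ.DpeStmt)
    (cmw : MWGQ.CmwStmt) : NmnStmt := by
  intro n β hM hn hper hncr hgm hnb hc hk hE
  obtain ⟨d, hd, hG, -⟩ := gnd n β hn hper hncr hgm hnb hc hk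
  have hmod : 2 ≡ n + 2 [MOD d] := hG.en 2 (n + 2) hper
  have hdn : d ∣ n := by
    have h1 := (Nat.modEq_iff_dvd' (by omega)).1 hmod
    rwa [Nat.add_sub_cancel] at h1
  obtain ⟨i1, it, e0⟩ := itd n d β hn hd hdn hG
  obtain ⟨a, b⟩ := lef d β hM hG (fun h => hE (e0 h))
  exact ⟨cmw d β hG a (dpe d β hM hG), i1 a, it b⟩

end Pool.Agent.MWLQ.H23
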